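import Pool.Agent.H33.SK4

set_option autoImplicit false

open Pool.Agent.H33

namespace Pool.Agent.Results.MP_fe3374_gt.DiamondCex

theorem result (h : DiaDefs.Diamond) :
    ¬ (∀ (X : Type) [TopologicalSpace X] [CompactSpace X] [T2Space X],
    (∀ F : (n : ℕ) → Set (Fin n → X), (∀ n, IsClosed (F n)) →
      ∃ f : X → X, Continuous f ∧
        (∃ 𝒩 : Set (Set X), 𝒩.Countable ∧ (∀ N ∈ 𝒩, N ⊆ Set.range f) ∧
          ∀ x ∈ Set.range f, ∀ V : Set X, IsOpen V → x ∈ V →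
            ∃ N ∈ 𝒩, x ∈ N ∧ N ⊆ V) ∧
        ∀ n, ∀ x ∈ F n, (fun i => f (x i)) ∈ F n) →
    (∀ 𝒰 : Set (Set {g : X → ℝ // Continuous g}),
      (∀ U ∈ 𝒰, IsOpen U ∧ U.Nonempty) →
      (∀ g : {g : X → ℝ // Continuous g}, {U | U ∈ 𝒰 ∧ g ∈ U}.Finite) →
      𝒰.Countable) →
    TopologicalSpace.MetrizableSpace X) := by
  intro H
  obtain ⟨X, τ, a, b, c, -, d, e⟩ := SK4.main h
  have := H X (fun F hF => by
    obtain ⟨f, f1, f2, f3⟩ := c F hF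
    exact ⟨f, f1, ⟨_, f2.image singleton,
      by rintro _ ⟨x, hx, rfl⟩; exact Set.singleton_subset_iff.2 hx,
      fun x hx V _ hV => ⟨_, ⟨x, hx, rfl⟩, rfl, Set.singleton_subset_iff.2 hV⟩⟩, f3⟩)
    (SK3.pf Subtype.val (fun g hg => ⟨⟨g, hg⟩, rfl⟩) d)
  exact e inferInstance

end Pool.Agent.Results.MP_fe3374_gt.DiamondCex
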